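import Pool.Agent.Y560.BE.All
import Pool.Agent.H110K2.P_polish_of_Gdelta

/-!
# Equivariant maps from the free part of `2^{ℤ^d}` to subshifts of finite type
-/

set_option autoImplicit false

namespace Pool.Agent.Q214.SFT

open MeasureTheory Set

/-- The group `ℤ^d`. -/
abbrev Zd (d : ℕ) : Type := Fin d → ℤ

/-- The shift action of `ℤ^d` on `A^{ℤ^d}`: `(g · x)(h) = x(h + g)`. -/
def shift {d : ℕ} {A : Type} (g : Zd d) (x : Zd d → A) : Zd d → A := fun h => x (h + g)

/-- The free part `F(2^{ℤ^d})`: the points `x` with `g · x ≠ x` for all `g ≠ 0`. -/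
def FreePart (d : ℕ) : Set (Zd d → Bool) := {x | ∀ g : Zd d, g ≠ 0 → shift g x ≠ x}

theorem shift_zero {d : ℕ} {A : Type} (x : Zd d → A) : shift 0 x = x := by
  funext h; simp [shift]

theorem shift_add {d : ℕ} {A : Type} (g h : Zd d) (x : Zd d → A) :
    shift (g + h) x = shift g (shift h x) := by
  funext k
  simp only [shift, add_assoc]

theorem shift_mem {d : ℕ} {g : Zd d} {x : Zd d → Bool} (hx : x ∈ FreePart d) :
    shift g x ∈ FreePart d := by
  intro k hk h
  refine hx k hk ?_
  have h1 : shift (-g) (shift k (shift g x)) = shift (-g) (shift g x) := by rw [h]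
  rwa [← shift_add, ← shift_add, ← shift_add, neg_add_cancel, shift_zero,
    show -g + k + g = k by abel] at h1

/-- The shift action on the free part. -/
def act {d : ℕ} (g : Zd d) (x : FreePart d) : FreePart d := ⟨shift g x.1, shift_mem x.2⟩

/-- `S ⊆ A^{ℤ^d}` (with `A = Fin k`) is a subshift of finite type: for some finite set `F` of finite
patterns (a pattern is a finite set `W ⊆ ℤ^d` together with a map `W → A`), `S` consists of all
configurations in which no translate of a pattern from `F` occurs. -/
def IsSFT {d k : ℕ} (S : Set (Zd d → Fin k)) : Prop :=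
  ∃ F : Set (Σ W : Finset (Zd d), (W → Fin k)), F.Finite ∧
    S = {y | ∀ P ∈ F, ∀ g : Zd d, (fun σ : P.1 => y (σ.1 + g)) ≠ P.2}

/-- `T` is an equivariant map from the free part of `2^{ℤ^d}` to `S`. -/
structure EquivariantInto {d k : ℕ} (S : Set (Zd d → Fin k)) (T : FreePart d → (Zd d → Fin k)) :
    Prop where
  mem : ∀ x, T x ∈ S
  equivariant : ∀ g x, T (act g x) = shift g (T x)

/-- Condition (i): there is a Borel equivariant map `F(2^{ℤ^d}) → S`. -/
def CondBorel {d k : ℕ} (S : Set (Zd d → Fin k)) : Prop :=
  ∃ T : FreePart d → (Zd d → Fin k), EquivariantInto S T ∧ Measurable T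

/-- Condition (ii): there is a Baire measurable equivariant map `F(2^{ℤ^d}) → S` (the preimage of
every Borel set has the Baire property). -/
def CondBaire {d k : ℕ} (S : Set (Zd d → Fin k)) : Prop :=
  ∃ T : FreePart d → (Zd d → Fin k), EquivariantInto S T ∧
    ∀ B, MeasurableSet B → BaireMeasurableSet (T ⁻¹' B)

/-- `S` admits a `μ`-measurable equivariant map `F(2^{ℤ^d}) → S` (the preimage of every Borel set is
measurable for the completion of `μ`). -/
def MeasFor {d k : ℕ} (S : Set (Zd d → Fin k)) (μ : Measure (FreePart d)) : Prop :=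
  ∃ T : FreePart d → (Zd d → Fin k), EquivariantInto S T ∧
    ∀ B, MeasurableSet B → NullMeasurableSet (T ⁻¹' B) μ

/-- Condition (iii): for every Borel probability measure `μ` on `F(2^{ℤ^d})` there is a
`μ`-measurable equivariant map `F(2^{ℤ^d}) → S`. -/
def CondMeasure {d k : ℕ} (S : Set (Zd d → Fin k)) : Prop :=
  ∀ μ : Measure (FreePart d), IsProbabilityMeasure μ → MeasFor S μ

/-- The coin flip measure on `2^{ℤ^d}`, restricted to the free part (which is conull, see
`coin_isProbability`). -/
noncomputable def coin (d : ℕ) : Measure (FreePart d) :=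
  (Measure.infinitePi fun _ : Zd d =>
    (2⁻¹ : ENNReal) • (Measure.dirac true + Measure.dirac false : Measure Bool)).comap Subtype.val

end Pool.Agent.Q214.SFT
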