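import Pool.Agent.Q214.SFT.Defs

/-!
# A subshift of finite type separating the Baire measurable from the Borel and the measurable case
-/

set_option autoImplicit false

noncomputable section

namespace Pool.Agent.Q214.SFT

open MeasureTheory Set Pool.Agent.W927.BM Pool.Agent.Y560.BE

variable {d : ℕ}

/-! ### the space and the action -/

theorem continuous_shift (g : Zd d) : Continuous (shift g : (Zd d → Bool) → (Zd d → Bool)) :=
  continuous_pi fun h => continuous_apply (h + g)

theorem isGdelta_freePart : IsGδ (FreePart d) := by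
  have h : FreePart d = ⋂ g : Zd d, {x | g ≠ 0 → shift g x ≠ x} := by
    ext x
    simp only [FreePart, Set.mem_iInter, Set.mem_ofPred_eq]
  rw [h]
  refine IsGδ.iInter_of_isOpen fun g => ?_
  by_cases hg : g = 0
  · simp [hg]
  · have : {x : Zd d → Bool | g ≠ 0 → shift g x ≠ x} = {x | shift g x = x}ᶜ := by
      ext x
      simp [hg]
    rw [this]
    exact (isClosed_eq (continuous_shift g) continuous_id).isOpen_compl

instance polishBool : PolishSpace (Zd d → Bool) := {}

instance polishFree : PolishSpace (FreePart d) := Pool.H110K2.polish_of_Gdelta isGdelta_freePart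

theorem act_zero (x : FreePart d) : act 0 x = x := Subtype.ext (shift_zero _)

theorem act_add (g h : Zd d) (x : FreePart d) : act (g + h) x = act g (act h x) :=
  Subtype.ext (shift_add _ _ _)

theorem continuous_act (g : Zd d) : Continuous (act g : FreePart d → FreePart d) :=
  Continuous.subtype_mk ((continuous_shift g).comp continuous_subtype_val) _

/-- the action as a homeomorphism -/
def actHomeo (g : Zd d) : FreePart d ≃ₜ FreePart d where
  toFun := act g
  invFun := act (-g)
  left_inv x := by rw [← act_add, neg_add_cancel, act_zero]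
  right_inv x := by rw [← act_add, add_neg_cancel, act_zero]
  continuous_toFun := continuous_act g
  continuous_invFun := continuous_act (-g)

theorem freeBorel_act : FreeBorel (act : Zd d → FreePart d → FreePart d) := by
  refine ⟨act_zero, act_add, fun g => (continuous_act g).measurable, ?_⟩
  intro g x h
  by_contra hg
  exact x.2 g hg (congrArg Subtype.val h)

/-! ### from labelling problems to subshifts -/

/-- the subshift of the solutions of a labelling problem -/
def sol (P : LCLP (Zd d)) : Set (Zd d → Fin P.k) :=
  {y | ∀ g : Zd d, (fun σ : P.W => y (σ.1 + g)) ∈ P.A}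

theorem isSFT_sol (P : LCLP (Zd d)) : IsSFT (sol P) := by
  classical
  refine ⟨(fun p : P.W → Fin P.k => (⟨P.W, p⟩ : Σ W : Finset (Zd d), (W → Fin P.k))) '' P.Aᶜ,
    (Set.toFinite _).image _, ?_⟩
  ext y
  simp only [sol, Set.mem_ofPred_eq, Set.forall_mem_image, Set.mem_compl_iff]
  constructor
  · intro h p hp g e
    exact hp (e ▸ h g)
  · intro h g
    by_contra hg
    exact h hg g rfl

theorem into_of_labelling (P : LCLP (Zd d)) {f : FreePart d → Fin P.k}
    (hf : P.IsLabelling act f) : EquivariantInto (sol P) (fun x g => f (act g x)) := by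
  refine ⟨fun x g => ?_, fun g x => ?_⟩
  · have h := hf (act g x)
    have e : (fun σ : P.W => f (act (σ.1 + g) x)) = fun σ : P.W => f (act σ.1 (act g x)) := by
      funext σ
      rw [act_add]
    show (fun σ : P.W => f (act (σ.1 + g) x)) ∈ P.A
    rw [e]
    exact h
  · funext h
    show f (act h (act g x)) = f (act (h + g) x)
    rw [act_add]

theorem labelling_of_into (P : LCLP (Zd d)) {T : FreePart d → (Zd d → Fin P.k)}
    (hT : EquivariantInto (sol P) T) : P.IsLabelling act (fun x => T x 0) := by
  intro x
  have h := hT.mem x 0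
  have e : (fun σ : P.W => T (act σ.1 x) 0) = fun σ : P.W => T x (σ.1 + 0) := by
    funext σ
    rw [hT.equivariant, add_zero]
    show T x (0 + σ.1) = T x σ.1
    rw [zero_add]
  show (fun σ : P.W => T (act σ.1 x) 0) ∈ P.A
  rw [e]
  exact h

theorem condBaire_of_inBaire (P : LCLP (Zd d)) (h : P.InBaire) : CondBaire (sol P) := by
  obtain ⟨f, hf, hP⟩ := h (FreePart d) act freeBorel_act
  refine ⟨_, into_of_labelling P hP, ?_⟩
  have h1 : ∀ g : Zd d, ∀ i, BaireMeasurableSet {x : FreePart d | f (act g x) = i} := by
    intro g i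
    exact BaireMeasurableSet.preimage (continuous_act g) (actHomeo g).isOpenMap (hf i)
  have h2 : @Measurable _ _ (eventuallyMeasurableSpace (borel _) (residual _)) _
      (fun (x : FreePart d) (g : Zd d) => f (act g x)) := by
    refine @measurable_pi_lambda _ _ _ (eventuallyMeasurableSpace (borel _) (residual _)) _ _ ?_
    intro g
    refine @measurable_to_countable' _ _ _ _ (eventuallyMeasurableSpace (borel _) (residual _)) _ ?_
    intro i
    exact h1 g i
  intro B hB
  exact h2 hB

/-! ### the coin flip measure -/

/-- the fair coin -/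
def fair : Measure Bool := (2⁻¹ : ENNReal) • (Measure.dirac true + Measure.dirac false)

instance : IsProbabilityMeasure fair := by
  refine ⟨?_⟩
  simp only [fair, Measure.smul_apply, Measure.add_apply, Measure.dirac_apply, Set.indicator_univ,
    Pi.one_apply, smul_eq_mul]
  rw [one_add_one_eq_two]
  exact ENNReal.inv_mul_cancel (by norm_num) (by norm_num)

/-- the coin flip measure on the whole space -/
def cf (d : ℕ) : Measure (Zd d → Bool) := Measure.infinitePi fun _ : Zd d => fair

theorem coin_eq : coin d = (cf d).comap Subtype.val := rfl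

theorem shift_eq_cm (g : Zd d) :
    (shift g : (Zd d → Bool) → (Zd d → Bool)) = cm (Equiv.addRight g) := rfl

instance : IsProbabilityMeasure (cf d) := by
  unfold cf
  infer_instance

theorem erg_shift {g : Zd d} (hg : g ≠ 0) : Ergodic (shift g) (cf d) := by
  classical
  rw [shift_eq_cm]
  refine erg_cm fair (Equiv.addRight g) (move_off _ fun i n h => hg ?_)
  have h1 : ∀ m : ℕ, (Equiv.addRight g)^[m] i = i + m • g := by
    intro m
    induction m with
    | zero => simp
    | succ m ih =>
      rw [Function.iterate_succ_apply', ih]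
      show i + m • g + g = _
      rw [add_assoc, ← succ_nsmul]
  rw [h1] at h
  have h2 : (n + 1) • g = 0 := by
    have : i + (n + 1) • g = i + 0 := by rw [h, add_zero]
    exact add_left_cancel this
  funext j
  have h3 := congrFun h2 j
  simp only [Pi.smul_apply, Pi.zero_apply, nsmul_eq_mul] at h3
  have h4 : ((n + 1 : ℕ) : ℤ) ≠ 0 := by positivity
  rcases mul_eq_zero.1 h3 with h5 | h5
  · exact absurd h5 h4
  · exact h5

theorem cf_coord (b : Bool) : cf d {x | x 0 = b} = 2⁻¹ := by
  have h : MeasurePreserving (fun x : Zd d → Bool => x 0) (cf d) fair :=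
    measurePreserving_eval_infinitePi (fun _ : Zd d => fair) 0
  have h1 := h.measure_preimage (measurableSet_singleton b).nullMeasurableSet
  have h2 : fair {b} = 2⁻¹ := by
    cases b <;> simp [fair]
  rw [h2] at h1
  exact h1

theorem shift_inj {A : Type} (g : Zd d) {x y : Zd d → A} (h : shift g x = shift g y) : x = y := by
  have h1 : shift (-g) (shift g x) = shift (-g) (shift g y) := by rw [h]
  rwa [← shift_add, ← shift_add, neg_add_cancel, shift_zero, shift_zero] at h1

theorem null_fix {g : Zd d} (hg : g ≠ 0) : cf d {x | shift g x = x} = 0 := by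
  have hm : MeasurableSet {x : Zd d → Bool | shift g x = x} :=
    (isClosed_eq (continuous_shift g) continuous_id).measurableSet
  have key : ∀ b : Bool, cf d ({x | shift g x = x} ∩ {x | x 0 = b}) = 0 := by
    intro b
    have hmb : MeasurableSet ({x : Zd d → Bool | shift g x = x} ∩ {x | x 0 = b}) :=
      hm.inter (measurableSet_eq_fun (measurable_pi_apply (0 : Zd d)) measurable_const)
    have hinv : shift g ⁻¹' ({x : Zd d → Bool | shift g x = x} ∩ {x | x 0 = b}) =
        {x | shift g x = x} ∩ {x | x 0 = b} := by
      ext x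
      simp only [Set.mem_preimage, Set.mem_inter_iff, Set.mem_ofPred_eq]
      constructor
      · rintro ⟨h1, h2⟩
        have h3 := shift_inj g h1
        rw [h3] at h2
        exact ⟨h3, h2⟩
      · rintro ⟨h1, h2⟩
        rw [h1, h1]
        exact ⟨rfl, h2⟩
    rcases (erg_shift hg).toPreErgodic.prob_eq_zero_or_one hmb hinv with h | h
    · exact h
    · exfalso
      have h1 : cf d ({x | shift g x = x} ∩ {x | x 0 = b}) ≤ 2⁻¹ :=
        (measure_mono Set.inter_subset_right).trans (cf_coord b).le
      rw [h] at h1
      have h2 : (2⁻¹ : ENNReal) < 1 := by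
        rw [ENNReal.inv_lt_one]
        norm_num
      exact absurd (h1.trans_lt h2) (lt_irrefl _)
  have hsub : {x : Zd d → Bool | shift g x = x} ⊆
      ({x | shift g x = x} ∩ {x | x 0 = true}) ∪ ({x | shift g x = x} ∩ {x | x 0 = false}) := by
    intro x hx
    cases h : x 0
    · exact Or.inr ⟨hx, h⟩
    · exact Or.inl ⟨hx, h⟩
  refine measure_mono_null hsub (measure_union_null (key true) (key false))

theorem measurableSet_freePart : MeasurableSet (FreePart d) := isGdelta_freePart.measurableSet

theorem null_compl : cf d (FreePart d)ᶜ = 0 := by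
  have : (FreePart d)ᶜ ⊆ ⋃ g : {g : Zd d // g ≠ 0}, {x | shift g.1 x = x} := by
    intro x hx
    simp only [FreePart, Set.mem_compl_iff, Set.mem_ofPred_eq, not_forall, not_not] at hx
    obtain ⟨g, hg, h⟩ := hx
    exact Set.mem_iUnion.2 ⟨⟨g, hg⟩, h⟩
  exact measure_mono_null this (measure_iUnion_null fun g => null_fix g.2)

theorem embedding : MeasurableEmbedding (Subtype.val : FreePart d → (Zd d → Bool)) :=
  MeasurableEmbedding.subtype_coe measurableSet_freePart

theorem coin_apply (s : Set (FreePart d)) : coin d s = cf d (Subtype.val '' s) := by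
  rw [coin_eq]
  exact embedding.comap_apply _ _

/-- The coin flip measure of the free part is a probability measure. -/
instance coin_isProbability : IsProbabilityMeasure (coin d) := by
  refine ⟨?_⟩
  rw [coin_apply, Set.image_univ, Subtype.range_coe]
  exact (prob_compl_eq_zero_iff measurableSet_freePart).1 null_compl

theorem image_preimage (g : Zd d) (s : Set (FreePart d)) :
    Subtype.val '' (act g ⁻¹' s) = shift g ⁻¹' (Subtype.val '' s) := by
  ext x
  constructor
  · rintro ⟨y, hy, rfl⟩
    exact ⟨act g y, hy, rfl⟩
  · rintro ⟨y, hy, hyx⟩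
    refine ⟨act (-g) y, ?_, ?_⟩
    · show act g (act (-g) y) ∈ s
      rwa [← act_add, add_neg_cancel, act_zero]
    · show shift (-g) y.1 = x
      rw [hyx, ← shift_add, neg_add_cancel, shift_zero]

theorem mp_shift (g : Zd d) : MeasurePreserving (shift g) (cf d) (cf d) :=
  mp_cm fair (Equiv.addRight g)

theorem mp_act (g : Zd d) : MeasurePreserving (act g) (coin d) (coin d) := by
  refine ⟨(continuous_act g).measurable, ?_⟩
  ext s hs
  rw [Measure.map_apply (continuous_act g).measurable hs, coin_apply, coin_apply, image_preimage,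
    (mp_shift g).measure_preimage (embedding.measurableSet_image.2 hs).nullMeasurableSet]

theorem erg_act {g : Zd d} (hg : g ≠ 0) : Ergodic (act g) (coin d) := by
  refine ⟨mp_act g, ⟨fun s hs hs' => ?_⟩⟩
  have h1 : MeasurableSet (Subtype.val '' s) := embedding.measurableSet_image.2 hs
  have h2 : shift g ⁻¹' (Subtype.val '' s) = Subtype.val '' s := by
    rw [← image_preimage, hs']
  rw [Filter.eventuallyConst_set']
  rcases (erg_shift hg).toPreErgodic.prob_eq_zero_or_one h1 h2 with h | h
  · left
    rw [← coin_apply] at h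
    exact ae_eq_empty.2 h
  · right
    rw [← coin_apply] at h
    exact ae_eq_univ.2 ((prob_compl_eq_zero_iff hs).2 h)

/-- There is no measurable set invariant under `g` and swapped with its complement by `h`. -/
theorem no_set {g h : Zd d} (hg : g ≠ 0) {E : Set (FreePart d)} (hE : MeasurableSet E)
    (h1 : act g ⁻¹' E =ᵐ[coin d] E) (h2 : act h ⁻¹' E =ᵐ[coin d] Eᶜ) : False := by
  have h3 := (erg_act hg).quasiErgodic.ae_empty_or_univ₀ hE.nullMeasurableSet h1
  have h4 : coin d (act h ⁻¹' E) = coin d E := (mp_act h).measure_preimage hE.nullMeasurableSet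
  have h6 : coin d Eᶜ = coin d E := (measure_congr h2).symm.trans h4
  rcases h3 with h3 | h3
  · have h5 : coin d E = 0 := ae_eq_empty.1 h3
    have h7 : coin d E = 1 := (prob_compl_eq_zero_iff hE).1 (h6.trans h5)
    exact zero_ne_one (h5.symm.trans h7)
  · have h5 : coin d Eᶜ = 0 := ae_eq_univ.1 h3
    have h7 : coin d E = 1 := (prob_compl_eq_zero_iff hE).1 h5
    exact zero_ne_one ((h5.symm.trans h6).trans h7)

/-! ### the theorem -/

theorem main (hd : 2 ≤ d) : ∃ (k : ℕ) (S : Set (Zd d → Fin k)), IsSFT S ∧ CondBaire S ∧
    ¬ MeasFor S (coin d) := by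
  obtain ⟨P, h1, -, h3⟩ := Pool.Agent.Y560.BE.main (Γ := Zd d)
    (u := Pi.single ⟨0, by omega⟩ 1) (v := Pi.single ⟨1, by omega⟩ 1) ⟨add_comm _ _, by
      intro t x h
      have h1 := congrFun h ⟨0, by omega⟩
      have h2 := congrFun h ⟨1, by omega⟩
      simp at h1 h2
      exact ⟨h1, h2⟩⟩
  refine ⟨P.k, sol P, isSFT_sol P, condBaire_of_inBaire P h1, ?_⟩
  rintro ⟨T, hT, hm⟩
  have h4 := (h3 (FreePart d) act freeBorel_act (coin d) inferInstance mp_act).1
    ⟨fun x => T x 0, fun i => ?_, labelling_of_into P hT⟩
  · obtain ⟨E, hE, e1, e2⟩ := h4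
    refine no_set (g := Pi.single ⟨1, by omega⟩ 1) ?_ hE e1 e2
    intro h
    have := congrFun h ⟨1, by omega⟩
    simp at this
  · exact hm {y | y 0 = i} (measurableSet_eq_fun (measurable_pi_apply (0 : Zd d)) measurable_const)

end Pool.Agent.Q214.SFT
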